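import Pool.Agent.W959.PP.BXBP0

/-!
PP project (helper23), task BXBP: the Bessel inequality (adapted from `W973/KI/BXBI.lean`).
-/

set_option autoImplicit false

namespace Pool.Agent.W959.PP

open Finset
open Pool.Agent.H442R2
open Pool.Agent.H442R2.KF
open Pool.Agent.W23.DC
open Pool.Agent.W23.SG
open Pool.Agent.W23.KT
open Pool.Agent.W23.PL (P1 xx DW Ev)
open Pool.Agent.W23.PP
open Pool.Agent.W500.PL (xx_or xx_nonneg xx_le_one abs_xx Ev_bdd th1 th1_DW Ev_th1 ev_log)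
open Pool.Agent.W214.KS (ev_errK ev_powK fin_constK)

open Classical in
/-- the signs -/
noncomputable def coP (φ : ℤ → ℤ) (f : ℕ → ℝ) (N : ℕ) (T : Finset ℕ) (d : ℕ) : ℝ :=
  if d ∈ T then (if 0 ≤ DP φ f N d then 1 else -1) else 0

lemma coP_bd (φ : ℤ → ℤ) (f : ℕ → ℝ) (N : ℕ) (T : Finset ℕ) (d : ℕ) : |coP φ f N T d| ≤ 1 := by
  unfold coP
  split_ifs <;> simp

lemma coP_mem {φ : ℤ → ℤ} {f : ℕ → ℝ} {N : ℕ} {T : Finset ℕ} {d : ℕ} (h : coP φ f N T d ≠ 0) :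
    d ∈ T := by
  by_contra hd
  exact h (by unfold coP; rw [if_neg hd])

lemma coP_mul {φ : ℤ → ℤ} {f : ℕ → ℝ} {N : ℕ} {T : Finset ℕ} {d : ℕ} (h : d ∈ T) :
    coP φ f N T d * DP φ f N d = |DP φ f N d| := by
  unfold coP
  rw [if_pos h]
  split_ifs with h0
  · rw [one_mul, abs_of_nonneg h0]
  · rw [neg_one_mul, abs_of_neg (not_le.1 h0)]

lemma DP_eq (φ : ℤ → ℤ) (f : ℕ → ℝ) (N d : ℕ) :
    DP φ f N d = ∑ n ∈ Icc 1 N, f n * dP φ d n := by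
  classical
  unfold DP dP
  rw [Finset.sum_filter, Finset.sum_mul, ← Finset.sum_sub_distrib]
  apply Finset.sum_congr rfl
  intro n _
  split_ifs <;> ring

lemma RP_eq (φ : ℤ → ℤ) (f : ℕ → ℝ) (N X : ℕ) (T : Finset ℕ)
    (hT : ∀ d ∈ T, 1 < d ∧ d ≤ X) (n : ℤ) :
    RP φ (coP φ f N T) X n = ∑ d ∈ T, coP φ f N T d * dP φ d n := by
  unfold RP
  symm
  apply Finset.sum_subset
  · intro d hd
    exact Finset.mem_Icc.2 ⟨(hT d hd).1.le, (hT d hd).2⟩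
  · intro d _ hd
    have : coP φ f N T d = 0 := by
      by_contra h
      exact hd (coP_mem h)
    rw [this, zero_mul]

lemma card_ze {k M N : ℕ} {φ : ℤ → ℤ} (h : Sy k M N φ) (P : Finset ℕ) :
    ((P.filter (fun p : ℕ => φ p = 0)).card : ℝ) ≤ k := by
  obtain ⟨Z, hZ, hz⟩ := h.ze
  have h1 : (P.filter (fun p : ℕ => φ p = 0)).card ≤ Z.card := by
    refine card_le_card_of_injOn (fun p : ℕ => (p : ℤ)) (fun p hp => ?_)
      (fun a _ b _ hab => Nat.cast_injective hab)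
    have hp' := (mem_filter.1 hp).2
    exact hz _ hp'
  exact_mod_cast h1.trans hZ

/-- the integer side -/
lemma prP {k M N X : ℕ} {ε₁ : ℝ} (hε : 0 < ε₁) (hN2 : 2 ≤ N) (hX : X = ⌊(N : ℝ) ^ (49 / 100 : ℝ)⌋₊)
    (f : ℕ → ℝ) (hf : ∀ p, |f p| ≤ 1) (φ : ℤ → ℤ) (hφ : Sy k M N φ)
    (T : Finset ℕ) (hT : ∀ d ∈ T, BlP N ε₁ d) :
    ∃ c : ℕ → ℝ, CofP ((N : ℝ) ^ (ε₁ / 2)) X c ∧ (∀ d, c d ≠ 0 → d ∈ T) ∧
      ∑ d ∈ T, |DP φ f N d| ≤ |∑ p ∈ Icc 1 N, f p * rP φ c X p| + k * X := by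
  classical
  have hN0 : (0 : ℝ) < N := by exact_mod_cast (by omega : 0 < N)
  have hNr : (1 : ℝ) < N := by exact_mod_cast (by omega : 1 < N)
  have hL : 0 < Real.log N := Real.log_pos hNr
  have hCof : CofP ((N : ℝ) ^ (ε₁ / 2)) X (coP φ f N T) := by
    refine ⟨fun d => coP_bd φ f N T d, fun d hd => ?_⟩
    obtain ⟨h1, h2, h3, h4⟩ := hT d (coP_mem hd)
    refine ⟨h1, by rw [hX]; exact h2, h3, fun p hp hpd => ?_⟩
    have h5 := h4 p hp hpd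
    unfold tt at h5
    rw [le_div_iff₀ hL] at h5
    have hp0 : (0 : ℝ) < p := by exact_mod_cast hp.pos
    rw [← Real.log_lt_log_iff (Real.rpow_pos_of_pos hN0 _) hp0, Real.log_rpow hN0]
    have : ε₁ / 2 * Real.log N < ε₁ * Real.log N :=
      mul_lt_mul_of_pos_right (by linarith) hL
    linarith
  refine ⟨coP φ f N T, hCof, fun d hd => coP_mem hd, ?_⟩
  set c := coP φ f N T with hc
  set P := Icc 1 N with hP
  have hT' : ∀ d ∈ T, 1 < d ∧ d ≤ X := fun d hd => ⟨(hT d hd).1, by rw [hX]; exact (hT d hd).2.1⟩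
  have hid : ∑ d ∈ T, |DP φ f N d| = ∑ p ∈ P, f p * RP φ c X p := by
    have h1 : ∑ d ∈ T, |DP φ f N d| = ∑ d ∈ T, c d * DP φ f N d :=
      Finset.sum_congr rfl (fun d hd => (coP_mul hd).symm)
    have h2 : ∑ p ∈ P, f p * RP φ c X p = ∑ d ∈ T, c d * ∑ p ∈ P, f p * dP φ d p := by
      have h3 : ∀ p ∈ P, f p * RP φ c X p = ∑ d ∈ T, c d * (f p * dP φ d p) := by
        intro p _
        rw [hc, RP_eq φ f N X T hT', Finset.mul_sum]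
        apply Finset.sum_congr rfl
        intro d _
        ring
      rw [Finset.sum_congr rfl h3, Finset.sum_comm]
      apply Finset.sum_congr rfl
      intro d _
      rw [Finset.mul_sum]
    rw [h1, h2]
    apply Finset.sum_congr rfl
    intro d _
    rw [DP_eq]
  have hself : |∑ p ∈ P, f p * (RP φ c X p - rP φ c X p)| ≤ k * X := by
    have hz : ∀ p ∈ P, φ p ≠ 0 → f p * (RP φ c X p - rP φ c X p) = 0 := by
      intro p _ hp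
      unfold rP
      rw [if_neg hp, sub_self, mul_zero]
    have h1 : ∑ p ∈ P, f p * (RP φ c X p - rP φ c X p) =
        ∑ p ∈ P.filter (fun p : ℕ => φ p = 0), f p * (RP φ c X p - rP φ c X p) :=
      (Finset.sum_filter_of_ne (fun p hp hne => by
        by_contra h
        exact hne (hz p hp h))).symm
    rw [h1]
    refine (Finset.abs_sum_le_sum_abs _ _).trans ?_
    have h2 : ∀ p ∈ P.filter (fun p : ℕ => φ p = 0),
        |f p * (RP φ c X p - rP φ c X p)| ≤ (X : ℝ) := by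
      intro p hp
      have hp0 := (Finset.mem_filter.1 hp).2
      have h3 : rP φ c X p = 0 := by
        unfold rP
        rw [if_pos hp0]
      rw [h3, sub_zero, abs_mul]
      calc |f p| * |RP φ c X p| ≤ 1 * (X : ℝ) :=
            mul_le_mul (hf p) (RP_bd hCof.bd X p) (abs_nonneg _) zero_le_one
        _ = _ := one_mul _
    refine (Finset.sum_le_sum h2).trans ?_
    rw [Finset.sum_const, nsmul_eq_mul]
    exact mul_le_mul_of_nonneg_right (card_ze hφ P) (Nat.cast_nonneg _)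
  have hsplit : ∑ p ∈ P, f p * RP φ c X p =
      ∑ p ∈ P, f p * rP φ c X p + ∑ p ∈ P, f p * (RP φ c X p - rP φ c X p) := by
    rw [← Finset.sum_add_distrib]
    apply Finset.sum_congr rfl
    intro p _
    ring
  rw [hid, hsplit]
  have e1 := le_abs_self (∑ p ∈ P, f p * rP φ c X p)
  have e3 := le_abs_self (∑ p ∈ P, f p * (RP φ c X p - rP φ c X p))
  linarith

/-- the final computation, numbers only -/
lemma numP {y K ρ Fs G O SY Sa Er Λ A a : ℝ} (hy : 0 < y) (hK : 1 ≤ K) (hρ : 0 < ρ) (hρ1 : ρ ≤ 1)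
    (hΛ : 0 ≤ Λ) (hFs : Fs ≤ 125 * y) (hSY0 : 0 ≤ SY) (hSa0 : 0 ≤ Sa)
    (hG : G = 18 * K ^ 2 * y) (hO : O = 37 * K ^ 2 * (ρ * y))
    (hSY : SY ^ 2 ≤ 25 * Fs * (G * Λ + O * Λ ^ 2)) (hEr0 : 0 ≤ Er) (hEr : Er ≤ ρ * y * Λ)
    (hSa : Sa ≤ SY + Er) (hA : A = 112500 * K ^ 2) (ha : (231250 * K ^ 2 + 2) * ρ ≤ a) :
    Sa ^ 2 ≤ y ^ 2 * (A * Λ + a * Λ ^ 2) := by
  have hG0 : 0 ≤ G := by rw [hG]; positivity
  have hO0 : 0 ≤ O := by rw [hO]; positivity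
  have h1 : Sa ^ 2 ≤ 2 * SY ^ 2 + 2 * Er ^ 2 := by
    have := pow_le_pow_left₀ hSa0 hSa 2
    nlinarith [sq_nonneg (SY - Er)]
  have h2 : Er ^ 2 ≤ ρ * (y ^ 2 * Λ ^ 2) := by
    have h3 := pow_le_pow_left₀ hEr0 hEr 2
    have h4 : ρ ^ 2 ≤ ρ := by nlinarith
    have h5 : (ρ * y * Λ) ^ 2 = ρ ^ 2 * (y ^ 2 * Λ ^ 2) := by ring
    rw [h5] at h3
    exact h3.trans (mul_le_mul_of_nonneg_right h4 (by positivity))
  have h3 : SY ^ 2 ≤ 25 * (125 * y) * (G * Λ + O * Λ ^ 2) := by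
    refine hSY.trans ?_
    have h4 : 0 ≤ G * Λ + O * Λ ^ 2 := by positivity
    exact mul_le_mul_of_nonneg_right (by linarith) h4
  have h4 : 25 * (125 * y) * (G * Λ + O * Λ ^ 2) =
      y ^ 2 * (56250 * K ^ 2 * Λ + 115625 * K ^ 2 * ρ * Λ ^ 2) := by
    rw [hG, hO]
    ring
  rw [h4] at h3
  have h5 : (231250 * K ^ 2 + 2) * ρ * Λ ^ 2 ≤ a * Λ ^ 2 :=
    mul_le_mul_of_nonneg_right ha (sq_nonneg _)
  have h6 : y ^ 2 * ((231250 * K ^ 2 + 2) * ρ * Λ ^ 2) ≤ y ^ 2 * (a * Λ ^ 2) :=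
    mul_le_mul_of_nonneg_left h5 (sq_nonneg _)
  calc Sa ^ 2 ≤ 2 * SY ^ 2 + 2 * Er ^ 2 := h1
    _ ≤ 2 * (y ^ 2 * (56250 * K ^ 2 * Λ + 115625 * K ^ 2 * ρ * Λ ^ 2)) +
        2 * (ρ * (y ^ 2 * Λ ^ 2)) := by linarith
    _ = y ^ 2 * (112500 * K ^ 2 * Λ) + y ^ 2 * ((231250 * K ^ 2 + 2) * ρ * Λ ^ 2) := by ring
    _ ≤ y ^ 2 * (112500 * K ^ 2 * Λ) + y ^ 2 * (a * Λ ^ 2) := by linarith
    _ = y ^ 2 * (A * Λ + a * Λ ^ 2) := by rw [hA]; ring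

set_option maxHeartbeats 4000000 in
theorem BXBP (hRTP : St_RTP) (hFLWG : St_FLWG) (hCORP : St_CORP) (hPBP : St_PBP)
    (hOFDP : St_OFDP) (hVLBP : St_VLBP) (hGS : BX.St_GS) : St_BXBP := by
  classical
  intro k M hk hM A₀ hA₀
  obtain ⟨η₀, hη₀, hη₀40, ofd⟩ := hOFDP k M hk
  obtain ⟨c₁, hc₁, pbx⟩ := hPBP k M
  obtain ⟨εF, hεF, flw⟩ := hFLWG k hk η₀ (A₀ + 4 * c₁ + 10) hη₀ (by positivity)
  obtain ⟨CC, EE, NC, hCC, cor⟩ := hCORP k M hk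
  obtain ⟨vlbA, vlbB⟩ := hVLBP k hk
  refine ⟨EE + (3 * k + 4) + 3, min εF (1 / 10), lt_min hεF (by norm_num), ?_⟩
  intro ε₁ hε₁ hε₁s B hB
  have hεF1 : ε₁ ≤ εF := hε₁s.trans (min_le_left _ _)
  have hε10 : ε₁ ≤ 1 / 10 := hε₁s.trans (min_le_right _ _)
  have hε1 : ε₁ ≤ 1 := hε10.trans (by norm_num)
  obtain ⟨η, CO, NO, hη, hCO, ofd1⟩ := ofd ε₁ hε₁ hε1
  obtain ⟨N1, pbx1⟩ := pbx (ε₁ / 2) (by positivity) (by linarith only [hε1])
  obtain ⟨K, hKdef⟩ : ∃ K : ℝ, K = Real.exp (2 * c₁ / ε₁) := ⟨_, rfl⟩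
  have hK1 : 1 ≤ K := by
    rw [hKdef]
    exact Real.one_le_exp (by positivity)
  have hK0 : 0 < K := by linarith only [hK1]
  have hKK : 1 ≤ K ^ 2 := one_le_pow₀ hK1
  have hKe : Real.exp (c₁ / (ε₁ / 2)) = K := by
    rw [hKdef]
    congr 1
    field_simp
  obtain ⟨N3, flw1⟩ := flw ε₁ hε₁ hεF1
  obtain ⟨CV, N4, hCV, vlb1⟩ := vlbA M B (by omega) ε₁ hε₁ hε1
  obtain ⟨CW, hCW, vlbB1⟩ := vlbB ε₁ hε₁ hε1
  obtain ⟨N5, vlb2⟩ := vlbB1 M ε₁ hε₁ le_rfl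
  obtain ⟨ρ, hρdef⟩ : ∃ ρ : ℝ, ρ = Real.exp (-((A₀ + 4 * c₁ + 10) / ε₁)) := ⟨_, rfl⟩
  have hρ0 : 0 < ρ := by rw [hρdef]; exact Real.exp_pos _
  have hρ1 : ρ ≤ 1 := by
    rw [hρdef, Real.exp_le_one_iff]
    have : 0 ≤ (A₀ + 4 * c₁ + 10) / ε₁ := by positivity
    linarith only [this]
  obtain ⟨N6, err⟩ := ev_errK CC ρ EE (3 * k + 4) hCC hρ0
  obtain ⟨N7, po⟩ := ev_powK CO ρ η (3 * k + 3) hρ0 hη
  obtain ⟨N8, pe⟩ := ev_powK k ρ (1 / 2) (3 * k + 3) hρ0 (by norm_num)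
  obtain ⟨N9, hL3⟩ : ∃ N9 : ℕ, ∀ N : ℕ, N9 ≤ N → (2 : ℝ) ≤ Real.log N := by
    have := (Real.tendsto_log_atTop.comp
      (tendsto_natCast_atTop_atTop (R := ℝ))).eventually_ge_atTop (2 : ℝ)
    exact Filter.eventually_atTop.1 this
  refine ⟨112500 * K ^ 2, N1 + N3 + N4 + N5 + N6 + N7 + N8 + N9 + NC + NO + 2,
    by positivity, ?_⟩
  intro N hN φ0 hφ0 hV0pos ι 𝒜 φ h𝒜 hdis f hf hfx T hT
  have hNr : (2 : ℝ) ≤ N := by exact_mod_cast (by omega : 2 ≤ N)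
  have hN0 : (0 : ℝ) < N := by linarith only [hNr]
  have hN1 : (1 : ℝ) ≤ N := by linarith only [hNr]
  obtain ⟨L, hL⟩ : ∃ L : ℝ, L = Real.log N := ⟨_, rfl⟩
  have hL2 : 2 ≤ L := by rw [hL]; exact hL3 N (by omega)
  have hL0 : 0 < L := by linarith only [hL2]
  have hL1 : 1 ≤ L := by linarith only [hL2]
  obtain ⟨V0, hV0def⟩ : ∃ V : ℝ, V = VP φ0 (P0 N ε₁) := ⟨_, rfl⟩
  rw [← hV0def] at hV0pos
  have hV0l : 1 / L ^ (k + 1) ≤ V0 := by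
    have h := (vlb2 N (by omega) φ0 hφ0).2.2.2
    rw [← hV0def, ← hL] at h
    exact h hV0pos
  obtain ⟨V, hVdef⟩ : ∃ V : ι → ℝ, V = fun i => VP (φ i) (P1 N B ε₁) := ⟨_, rfl⟩
  have hVi : ∀ i, VP (φ i) (P1 N B ε₁) = V i := fun i => by rw [hVdef]
  have hVl : ∀ i ∈ 𝒜, 1 / L ^ (k + 1) ≤ V i := by
    intro i hi
    have h := vlb1 N (by omega) (φ i) (h𝒜 i hi).1
    rw [← hL] at h
    rw [← hVi]
    exact h.2.2.1.trans h.1
  have hLp : 0 < 1 / L ^ (k + 1) := by positivity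
  have hV0' : ∀ i ∈ 𝒜, 0 < V i := fun i hi => lt_of_lt_of_le hLp (hVl i hi)
  -- the small error
  obtain ⟨e, he⟩ : ∃ e : ℝ, e = ρ * N / L ^ (3 * k + 3) := ⟨_, rfl⟩
  have he0 : 0 ≤ e := by rw [he]; positivity
  have heL : e = ρ * N * ((1 / L ^ (k + 1)) * ((1 / L ^ (k + 1)) * (1 / L ^ (k + 1)))) := by
    rw [he]
    have : L ^ (3 * k + 3) = L ^ (k + 1) * (L ^ (k + 1) * L ^ (k + 1)) := by ring
    rw [this]
    field_simp
  have hLp1 : 1 / L ^ (k + 1) ≤ 1 := by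
    rw [div_le_one (by positivity)]
    exact one_le_pow₀ hL1
  have he1 : ∀ i ∈ 𝒜, ∀ j ∈ 𝒜, e ≤ ρ * (V0 * N) * (V i * V j) := by
    intro i hi j hj
    rw [heL]
    calc ρ * N * ((1 / L ^ (k + 1)) * ((1 / L ^ (k + 1)) * (1 / L ^ (k + 1)))) ≤
        ρ * N * (V0 * (V i * V j)) := by
          have h1 : (1 / L ^ (k + 1)) * (1 / L ^ (k + 1)) ≤ V i * V j :=
            mul_le_mul (hVl i hi) (hVl j hj) hLp.le (hV0' i hi).le
          have h2 := mul_le_mul hV0l h1 (by positivity) hV0pos.le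
          exact mul_le_mul_of_nonneg_left h2 (by positivity)
      _ = _ := by ring
  have he2 : ∀ i ∈ 𝒜, e ≤ (V0 * N) * V i := by
    intro i hi
    rw [heL]
    calc ρ * N * ((1 / L ^ (k + 1)) * ((1 / L ^ (k + 1)) * (1 / L ^ (k + 1)))) ≤
        1 * N * (V0 * (V i * 1)) := by
          have h1 : (1 / L ^ (k + 1)) * (1 / L ^ (k + 1)) ≤ V i * 1 :=
            mul_le_mul (hVl i hi) hLp1 hLp.le (hV0' i hi).le
          have h2 := mul_le_mul hV0l h1 (by positivity) hV0pos.le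
          have h3 : ρ * N ≤ 1 * N := mul_le_mul_of_nonneg_right hρ1 hN0.le
          exact mul_le_mul h3 h2 (by positivity) (by positivity)
      _ = _ := by ring
  have he3 : e ≤ V0 * N := by
    rw [heL]
    calc ρ * N * ((1 / L ^ (k + 1)) * ((1 / L ^ (k + 1)) * (1 / L ^ (k + 1)))) ≤
        1 * N * (V0 * (1 * 1)) := by
          have h1 : (1 / L ^ (k + 1)) * (1 / L ^ (k + 1)) ≤ 1 * 1 :=
            mul_le_mul hLp1 hLp1 hLp.le zero_le_one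
          have h2 := mul_le_mul hV0l h1 (by positivity) hV0pos.le
          have h3 : ρ * N ≤ 1 * N := mul_le_mul_of_nonneg_right hρ1 hN0.le
          exact mul_le_mul h3 h2 (by positivity) (by positivity)
      _ = _ := by ring
  -- the sets and weights
  obtain ⟨X, hX⟩ : ∃ X : ℕ, X = ⌊(N : ℝ) ^ (49 / 100 : ℝ)⌋₊ := ⟨_, rfl⟩
  have hXθ : (X : ℝ) ≤ (N : ℝ) ^ (49 / 100 : ℝ) := by
    rw [hX]
    exact Nat.floor_le (Real.rpow_nonneg hN0.le _)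
  have hXN : X ≤ N := by
    have : (X : ℝ) ≤ N := hXθ.trans (by
      calc (N : ℝ) ^ (49 / 100 : ℝ) ≤ (N : ℝ) ^ (1 : ℝ) :=
            Real.rpow_le_rpow_of_exponent_le hN1 (by norm_num)
        _ = N := Real.rpow_one _)
    exact_mod_cast this
  obtain ⟨D, hD⟩ : ∃ D : ℕ, D = ⌊(N : ℝ) ^ η₀⌋₊ := ⟨_, rfl⟩
  have hP10 : P1 N B ε₁ ⊆ P0 N ε₁ := by
    intro p hp
    unfold P1 at hp
    unfold P0
    rw [mem_filter] at hp ⊢
    exact ⟨hp.1, hp.2.1, hp.2.2.2⟩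
  have hflw := flw1 N (by omega) D hD
  rw [← hL, ← hρdef] at hflw
  obtain ⟨t0, l0, ht0, -, hx0, hg0⟩ := hflw (P0 N ε₁) subset_rfl
  obtain ⟨th, dl, hth, hdl, hxx, hg1⟩ := hflw (P1 N B ε₁) hP10
  have hP0p : ∀ p ∈ P0 N ε₁, p.Prime ∧ (p : ℝ) < (N : ℝ) ^ ε₁ := by
    intro p hp
    unfold P0 at hp
    rw [mem_filter] at hp
    refine ⟨hp.2.1, ?_⟩
    have h2 := hp.2.2
    unfold tt at h2
    rw [← hL, div_lt_iff₀ hL0] at h2
    have hp0 : (0 : ℝ) < p := by exact_mod_cast hp.2.1.pos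
    rw [← Real.log_lt_log_iff hp0 (by positivity), Real.log_rpow hN0, ← hL]
    exact h2
  have hP1p : ∀ p ∈ P1 N B ε₁, p.Prime ∧ L ^ B ≤ (p : ℝ) := by
    intro p hp
    unfold P1 at hp
    rw [mem_filter] at hp
    rw [hL]
    exact ⟨hp.2.1, hp.2.2.1⟩
  have hh0 : |hatP φ0 t0 D| ≤ 2 * V0 := by
    have h := (hg0 (rh φ0) (fun p hp => rh_prime hRTP hφ0 (hP0p p hp).1)).1
    rw [← hatP_eq hRTP hφ0 ht0] at h
    have h1 : ∏ p ∈ P0 N ε₁, (1 - rh φ0 p) = V0 := by rw [hV0def]; rfl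
    rw [h1] at h
    have h2 : |hatP φ0 t0 D| ≤ |hatP φ0 t0 D - V0| + |V0| := by
      have := abs_add_le (hatP φ0 t0 D - V0) V0
      simpa using this
    rw [abs_of_pos hV0pos] at h2
    have h3 : ρ * V0 ≤ 1 * V0 := mul_le_mul_of_nonneg_right hρ1 hV0pos.le
    linarith only [h, h2, h3]
  have hh1 : ∀ i ∈ 𝒜, |hatP (φ i) th D| ≤ 2 * V i := by
    intro i hi
    have h := (hg1 (rh (φ i)) (fun p hp => rh_prime hRTP (h𝒜 i hi).1 (hP1p p hp).1)).1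
    rw [← hatP_eq hRTP (h𝒜 i hi).1 hth] at h
    have h1 : ∏ p ∈ P1 N B ε₁, (1 - rh (φ i) p) = V i := by rw [← hVi]; rfl
    rw [h1] at h
    have h2 : |hatP (φ i) th D| ≤ |hatP (φ i) th D - V i| + |V i| := by
      have := abs_add_le (hatP (φ i) th D - V i) (V i)
      simpa using this
    rw [abs_of_pos (hV0' i hi)] at h2
    have h3 : ρ * V i ≤ 1 * V i := mul_le_mul_of_nonneg_right hρ1 (hV0' i hi).le
    linarith only [h, h2, h3]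
  have hh2 : ∀ i ∈ 𝒜, |hatP (φ i) dl D| ≤ ρ * V i := by
    intro i hi
    have h := (hg1 (rh (φ i)) (fun p hp => rh_prime hRTP (h𝒜 i hi).1 (hP1p p hp).1)).2
    rw [← hatP_eq hRTP (h𝒜 i hi).1 hdl] at h
    have h1 : ∏ p ∈ P1 N B ε₁, (1 - rh (φ i) p) = V i := by rw [← hVi]; rfl
    rw [h1] at h
    exact h
  have hNη : (1 : ℝ) ≤ (N : ℝ) ^ η₀ := Real.one_le_rpow hN1 hη₀.le
  have hD1 : 1 ≤ D := by
    rw [hD]
    exact Nat.le_floor (by exact_mod_cast hNη)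
  have hDη : (D : ℝ) ≤ (N : ℝ) ^ η₀ := by
    rw [hD]
    exact Nat.floor_le (by positivity)
  have hyB : 2 ≤ L ^ B := hL2.trans (le_self_pow₀ hL1 (by omega))
  have hDN' : ∀ N' : ℕ, N ≤ N' → (D : ℝ) ≤ (N' : ℝ) ^ (1 / 20 : ℝ) := by
    intro N' hN'
    have hMN : (N : ℝ) ≤ N' := by exact_mod_cast hN'
    calc (D : ℝ) ≤ (N : ℝ) ^ η₀ := hDη
      _ ≤ (N : ℝ) ^ (1 / 20 : ℝ) :=
          Real.rpow_le_rpow_of_exponent_le hN1 (by linarith only [hη₀40])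
      _ ≤ (N' : ℝ) ^ (1 / 20 : ℝ) := Real.rpow_le_rpow hN0.le hMN (by norm_num)
  have hge : ∀ N' : ℕ, (N' = N ∨ N' = 2 * N) → N ≤ N' := by
    intro N' h
    rcases h with h | h <;> omega
  -- CORP at `N` and `2N`
  have cu : ∀ N' : ℕ, (N' = N ∨ N' = 2 * N) → ∀ ψ1 ψ2 : ℤ → ℤ, Sy k M N ψ1 → Sy k M N ψ2 →
      Cp M N φ0 ψ1 → Cp M N φ0 ψ2 → Cp M N ψ1 ψ2 → ∀ t1 t2 : ℕ → ℝ,
      DW (P1 N B ε₁) D L t1 → DW (P1 N B ε₁) D L t2 → ∀ h1 h2 : ℝ, 0 ≤ h1 →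
      |hatP ψ1 t1 D| ≤ h1 → |hatP ψ2 t2 D| ≤ h2 →
      ∑' n : ℤ, Wt N' n * (Ev t0 D (φ0 n) * (Ev t1 D (ψ1 n) * Ev t2 D (ψ2 n))) ≤
        4 * (V0 * N) * (h1 * h2) + e := by
    intro N' hN' ψ1 ψ2 s1 s2 p1 p2 p12 t1 t2 d1 d2 h1 h2 hh10 hh1 hh2
    have hNN := hge N' hN'
    have h3 := cor N' (by omega) D hD1 (hDN' N' hNN) φ0 ψ1 ψ2 (Sy_two hφ0 hNN) (Sy_two s1 hNN)
      (Sy_two s2 hNN) (Cp_two p1 hNN) (Cp_two p2 hNN) (Cp_two p12 hNN) (P0 N ε₁) (P1 N B ε₁)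
      (P1 N B ε₁) (L ^ B) hyB (fun p hp => (hP0p p hp).1) hP1p hP1p L t0 t1 t2 hL1 ht0 d1 d2
    have h4 := err N (by omega) B hB N' hN'
    rw [← hL] at h4
    have h5 : CC * L ^ 3 * (N' * Real.log N' ^ EE / L ^ B + 1) ≤ e := by
      have h6 := mul_le_mul_of_nonneg_left h4 hL0.le
      have h7 : L * (ρ * N / L ^ (3 * k + 4)) = e := by
        rw [he, show 3 * k + 4 = (3 * k + 3) + 1 by ring, pow_succ]
        field_simp
      rw [h7] at h6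
      calc CC * L ^ 3 * (N' * Real.log N' ^ EE / L ^ B + 1) =
          L * (CC * L ^ 2 * (N' * Real.log N' ^ EE / L ^ B + 1)) := by ring
        _ ≤ e := h6
    have h6 := (abs_le.1 (h3.trans h5)).2
    have h7 : (N' : ℝ) * (hatP φ0 t0 D * (hatP ψ1 t1 D * hatP ψ2 t2 D)) ≤
        4 * (V0 * N) * (h1 * h2) := by
      refine (le_abs_self _).trans ?_
      rw [abs_mul, abs_mul, abs_mul, Nat.abs_cast]
      have h8 : |hatP ψ1 t1 D| * |hatP ψ2 t2 D| ≤ h1 * h2 :=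
        mul_le_mul hh1 hh2 (abs_nonneg _) hh10
      have h9 : |hatP φ0 t0 D| * (|hatP ψ1 t1 D| * |hatP ψ2 t2 D|) ≤ 2 * V0 * (h1 * h2) :=
        mul_le_mul hh0 h8 (by positivity) (by positivity)
      have h10 : (N' : ℝ) ≤ 2 * N := by
        rcases hN' with h | h
        · rw [h]; linarith only [hN0]
        · rw [h]; push_cast; exact le_rfl
      have h11 : 0 ≤ |hatP φ0 t0 D| * (|hatP ψ1 t1 D| * |hatP ψ2 t2 D|) := by positivity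
      calc (N' : ℝ) * (|hatP φ0 t0 D| * (|hatP ψ1 t1 D| * |hatP ψ2 t2 D|)) ≤
          (2 * N) * (2 * V0 * (h1 * h2)) := mul_le_mul h10 h9 h11 (by positivity)
        _ = _ := by ring
    linarith only [h6, h7]
  have hNge1 : 1 ≤ N := by omega
  have hS1 : Sy k M N one1 := Sy_one hNge1
  have hth1 : DW (P1 N B ε₁) D L th1 := th1_DW _ hD1 hL1
  have hhat1 : |hatP one1 th1 D| ≤ 1 := by rw [hatP_th1 _ hD1, abs_one]
  obtain ⟨v, hv⟩ : ∃ v : ℤ → ℝ, v = fun n => Ev t0 D (φ0 n) := ⟨_, rfl⟩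
  have hvn : ∀ n, v n = Ev t0 D (φ0 n) := fun n => by rw [hv]
  have hv0 : ∀ n, 0 ≤ v n := by
    intro n
    rw [hvn]
    exact (xx_nonneg _ _).trans (hx0 (φ0 n)).1
  have hvb : ∀ n, |v n| ≤ D * L := by
    intro n
    rw [hvn]
    exact Ev_bdd ht0 _
  have cuA : ∀ N' : ℕ, (N' = N ∨ N' = 2 * N) → ∑' n : ℤ, Wt N' n * v n ≤ 5 * (V0 * N) := by
    intro N' hN'
    have h := cu N' hN' one1 one1 hS1 hS1 (Cp_one hNge1 _) (Cp_one hNge1 _) (Cp_one hNge1 _)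
      th1 th1 hth1 hth1 1 1 zero_le_one hhat1 hhat1
    have h2 : ∑' n : ℤ, Wt N' n * v n = ∑' n : ℤ, Wt N' n * (Ev t0 D (φ0 n) *
        (Ev th1 D (one1 n) * Ev th1 D (one1 n))) := by
      refine tsum_congr fun n => ?_
      rw [Ev_th1 hD1, hvn]
      ring
    rw [h2]
    linarith only [h, he3]
  have cuB : ∀ i ∈ 𝒜, ∀ t : ℕ → ℝ, DW (P1 N B ε₁) D L t → ∀ h : ℝ, 0 ≤ h →
      |hatP (φ i) t D| ≤ h →
      ∑' n : ℤ, Wt (2 * N) n * v n * Ev t D (φ i n) ≤ 4 * (V0 * N) * h + e := by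
    intro i hi t ht h hh0' hh
    have h1 := cu (2 * N) (Or.inr rfl) (φ i) one1 (h𝒜 i hi).1 hS1 (h𝒜 i hi).2 (Cp_one hNge1 _)
      (Cp_one hNge1 _) t th1 ht hth1 h 1 hh0' hh hhat1
    have h2 : ∑' n : ℤ, Wt (2 * N) n * v n * Ev t D (φ i n) = ∑' n : ℤ, Wt (2 * N) n *
        (Ev t0 D (φ0 n) * (Ev t D (φ i n) * Ev th1 D (one1 n))) := by
      refine tsum_congr fun n => ?_
      rw [Ev_th1 hD1, hvn]
      ring
    rw [h2]
    rw [mul_one] at h1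
    exact h1
  have cuC : ∀ i ∈ 𝒜, ∀ j ∈ 𝒜, i ≠ j → ∀ t t' : ℕ → ℝ, DW (P1 N B ε₁) D L t →
      DW (P1 N B ε₁) D L t' → ∀ h h' : ℝ, 0 ≤ h → |hatP (φ i) t D| ≤ h →
      |hatP (φ j) t' D| ≤ h' →
      ∑' n : ℤ, Wt (2 * N) n * v n * (Ev t D (φ i n) * Ev t' D (φ j n)) ≤
        4 * (V0 * N) * (h * h') + e := by
    intro i hi j hj hij t t' ht ht' h h' hh0' hh hh'
    have h1 := cu (2 * N) (Or.inr rfl) (φ i) (φ j) (h𝒜 i hi).1 (h𝒜 j hj).1 (h𝒜 i hi).2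
      (h𝒜 j hj).2 (hdis i hi j hj hij) t t' ht ht' h h' hh0' hh hh'
    have h2 : ∑' n : ℤ, Wt (2 * N) n * v n * (Ev t D (φ i n) * Ev t' D (φ j n)) =
        ∑' n : ℤ, Wt (2 * N) n * (Ev t0 D (φ0 n) * (Ev t D (φ i n) * Ev t' D (φ j n))) := by
      refine tsum_congr fun n => ?_
      rw [hvn]
      ring
    rw [h2]
    exact h1
  -- coefficients
  have hc : ∀ i : ι, ∃ c : ℕ → ℝ, i ∈ 𝒜 → (CofP ((N : ℝ) ^ (ε₁ / 2)) X c ∧
      (∀ d, c d ≠ 0 → d ∈ T i) ∧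
      ∑ d ∈ T i, |DP (φ i) (fun n => f n * xx (P1 N B ε₁) (φ i n)) N d| ≤
        |∑ p ∈ Icc 1 N, f p * (xx (P1 N B ε₁) (φ i p) * rP (φ i) c X p)| + k * X) := by
    intro i
    by_cases hi : i ∈ 𝒜
    · obtain ⟨c, h1, h2, h3⟩ := prP hε₁ (by omega) hX
        (fun p => f p * xx (P1 N B ε₁) (φ i p))
        (fun p => by
          rw [abs_mul]
          calc |f p| * |xx (P1 N B ε₁) (φ i p)| ≤ 1 * 1 :=
                mul_le_mul (hf p) (abs_xx _ _) (abs_nonneg _) zero_le_one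
            _ = 1 := mul_one 1) (φ i) (h𝒜 i hi).1 (T i) (hT i hi)
      refine ⟨c, fun _ => ⟨h1, h2, ?_⟩⟩
      have h4 : ∑ p ∈ Icc 1 N, f p * xx (P1 N B ε₁) (φ i p) * rP (φ i) c X p =
          ∑ p ∈ Icc 1 N, f p * (xx (P1 N B ε₁) (φ i p) * rP (φ i) c X p) := by
        refine sum_congr rfl fun p _ => ?_
        ring
      rw [← h4]
      exact h3
    · exact ⟨0, fun h => absurd h hi⟩
  choose c hc using hc
  have hR : ∀ i ∈ 𝒜, ∀ n : ℤ, |rP (φ i) (c i) X n| ≤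
      K * (1 + |(n : ℝ)| / N) ^ (1 / 4 : ℝ) := by
    intro i hi n
    have h := (pbx1 N X (by omega) hXN (φ i) (h𝒜 i hi).1).2 (c i) (hc i hi).1 n
    rwa [hKe] at h
  have hbR : ∀ i ∈ 𝒜, ∀ n : ℤ, |rP (φ i) (c i) X n| ≤ X := fun i hi n =>
    rP_bd (hc i hi).1.bd X n
  -- the functions
  obtain ⟨r, hr⟩ : ∃ r : ι → ℤ → ℝ, r = fun i n => xx (P1 N B ε₁) (φ i n) * rP (φ i) (c i) X n :=
    ⟨_, rfl⟩
  have hrn : ∀ i n, r i n = xx (P1 N B ε₁) (φ i n) * rP (φ i) (c i) X n := fun i n => by rw [hr]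
  have hrb : ∀ i ∈ 𝒜, ∀ n, |r i n| ≤ X := by
    intro i hi n
    rw [hrn, abs_mul]
    calc |xx (P1 N B ε₁) (φ i n)| * |rP (φ i) (c i) X n| ≤ 1 * X :=
          mul_le_mul (abs_xx _ _) (hbR i hi n) (abs_nonneg _) zero_le_one
      _ = X := one_mul _
  have hw25 : ∀ p ∈ Icc 1 N, f p ≠ 0 → (1 : ℝ) ≤ 25 * (Wt N (p : ℤ) * v (p : ℤ)) := by
    intro p hp hfp
    rw [mem_Icc] at hp
    have h1 : 1 ≤ v (p : ℤ) := by
      rw [hvn, ← hfx p hfp]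
      exact (hx0 _).1
    have h0 : 0 ≤ ((p : ℤ) : ℝ) / N := by positivity
    have h2 : ((p : ℤ) : ℝ) / N ≤ 1 := by
      rw [div_le_one hN0]
      push_cast
      exact_mod_cast hp.2
    have h3 : (((p : ℤ) : ℝ) / N) ^ 2 ≤ 1 := pow_le_one₀ h0 h2
    have h4 : Real.exp (-Real.pi) ≤ Wt N (p : ℤ) := by
      unfold Wt
      apply Real.exp_le_exp.2
      nlinarith only [Real.pi_pos, h3]
    have h5 : 1 ≤ 25 * Wt N (p : ℤ) := by linarith only [BX.TaskBK.exp_neg_pi, h4]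
    have h6 : 25 * Wt N (p : ℤ) * 1 ≤ 25 * Wt N (p : ℤ) * v (p : ℤ) :=
      mul_le_mul_of_nonneg_left h1 (by linarith only [h5])
    linarith only [h5, h6]
  have hw0 : ∀ n : ℤ, 0 ≤ Wt N n * v n := fun n => mul_nonneg (Real.exp_nonneg _) (hv0 n)
  have hsw : Summable (fun n : ℤ => Wt N n * v n) := by
    have h := summ_v (N := N) hNge1 hvb (g := fun _ => 1) (K := 1) (fun n => by simp)
    simpa using h
  have hFs : ∑ p ∈ Icc 1 N, f p ^ 2 ≤ 125 * (V0 * N) := by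
    have h1 : ∑ p ∈ Icc 1 N, f p ^ 2 ≤ ∑ p ∈ Icc 1 N, 25 * (Wt N (p : ℤ) * v (p : ℤ)) := by
      refine sum_le_sum fun p hp => ?_
      by_cases hfp : f p = 0
      · rw [hfp]
        have := hw0 (p : ℤ)
        nlinarith only [this]
      · have h2 : f p ^ 2 ≤ 1 := by
          rw [← sq_abs]
          exact pow_le_one₀ (abs_nonneg _) (hf p)
        exact h2.trans (hw25 p hp hfp)
    rw [← Finset.mul_sum] at h1
    have h2 : ∑ p ∈ Icc 1 N, Wt N (p : ℤ) * v (p : ℤ) ≤ ∑' n : ℤ, Wt N n * v n := by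
      have e2 : ∑ p ∈ Icc 1 N, Wt N (p : ℤ) * v (p : ℤ) =
          ∑ n ∈ (Icc 1 N).map ⟨fun p : ℕ => (p : ℤ), Nat.cast_injective⟩, Wt N n * v n := by
        rw [sum_map]
        rfl
      rw [e2]
      exact hsw.sum_le_tsum _ (fun n _ => hw0 n)
    have h3 := cuA N (Or.inl rfl)
    linarith only [h1, h2, h3]
  obtain ⟨y, hy⟩ : ∃ y : ℝ, y = V0 * N := ⟨_, rfl⟩
  have hy0 : 0 < y := by rw [hy]; positivity
  obtain ⟨G, hG⟩ : ∃ G : ℝ, G = 18 * K ^ 2 * y := ⟨_, rfl⟩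
  obtain ⟨O, hO⟩ : ∃ O : ℝ, O = 37 * K ^ 2 * (ρ * y) := ⟨_, rfl⟩
  have hO0 : 0 ≤ O := by rw [hO]; positivity
  have hGle : ∀ i ∈ 𝒜, ∑' n : ℤ, Wt N n * v n * (r i n * r i n) ≤ G * V i := by
    intro i hi
    have h1 := cuB i hi th hth (2 * V i) (by linarith only [hV0' i hi]) (hh1 i hi)
    have h2 := diag_v (N := N) (v := v) (x := fun n => xx (P1 N B ε₁) (φ i n))
      (t := fun n => Ev th D (φ i n)) (R := fun n => rP (φ i) (c i) X n) hNge1 hv0 hvb hGS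
      hK0.le (fun n => xx_or _ _) (fun n => (hxx (φ i n)).1) (hbR i hi)
      (fun n => Ev_bdd hth _) (hR i hi) h1
    simp only [hrn]
    refine h2.trans ?_
    have h3 := he2 i hi
    rw [← hy] at h3 ⊢
    rw [hG]
    have h4 : 4 * y * (2 * V i) + e ≤ 9 * (y * V i) := by linarith only [h3]
    calc 2 * K ^ 2 * (4 * y * (2 * V i) + e) ≤ 2 * K ^ 2 * (9 * (y * V i)) :=
          mul_le_mul_of_nonneg_left h4 (by positivity)
      _ = _ := by ring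
  have hOle : ∀ i ∈ 𝒜, ∀ j ∈ 𝒜, i ≠ j → |∑' n : ℤ, Wt N n * v n * (r i n * r j n)| ≤
      O * (V i * V j) := by
    intro i hi j hj hij
    have hE0 : ∀ m : ℤ, 0 ≤ Ev th D m := fun m => (xx_nonneg _ _).trans (hxx m).1
    have hE00 : ∀ m : ℤ, 0 ≤ Ev t0 D m := fun m => (xx_nonneg _ _).trans (hx0 m).1
    have hP1q : ∀ p ∈ P1 N B ε₁, p.Prime ∧ (p : ℝ) < (N : ℝ) ^ ε₁ := fun p hp =>
      hP0p p (hP10 hp)
    have h1 := ofd1 N D X (by omega) hD1 hDη hX φ0 (φ i) (φ j) hφ0 (h𝒜 i hi).1 (h𝒜 j hj).1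
      (hdis i hi j hj hij) (P0 N ε₁) (P1 N B ε₁) (P1 N B ε₁) hP0p hP1q hP1q t0 th th
      (by rw [← hL]; exact ht0) (by rw [← hL]; exact hth) (by rw [← hL]; exact hth)
      hE00 hE0 hE0 (c i) (c j) (hc i hi).1 (hc j hj).1
      (fun d hd => hT i hi d ((hc i hi).2.1 d hd))
      (fun d hd => hT j hj d ((hc j hj).2.1 d hd))
    have h2 := po N (by omega)
    rw [← hL, ← he] at h2
    have h3 := cuC i hi j hj hij dl th hdl hth (ρ * V i) (2 * V j)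
      (mul_nonneg hρ0.le (hV0' i hi).le) (hh2 i hi) (hh1 j hj)
    have h4 := cuC i hi j hj hij th dl hth hdl (2 * V i) (ρ * V j)
      (by linarith only [hV0' i hi]) (hh1 i hi) (hh2 j hj)
    have e4 : 4 * (V0 * N) * (2 * V i * (ρ * V j)) + e =
        4 * (V0 * N) * (ρ * V i * (2 * V j)) + e := by ring
    rw [e4] at h4
    have h0 : |∑' n : ℤ, Wt N n * v n * (Ev th D (φ i n) * Ev th D (φ j n)) *
        (rP (φ i) (c i) X n * rP (φ j) (c j) X n)| ≤ e := by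
      have e5 : ∑' n : ℤ, Wt N n * v n * (Ev th D (φ i n) * Ev th D (φ j n)) *
          (rP (φ i) (c i) X n * rP (φ j) (c j) X n) =
          ∑' n : ℤ, Wt N n * (Ev t0 D (φ0 n) * (Ev th D (φ i n) * Ev th D (φ j n))) *
          (rP (φ i) (c i) X n * rP (φ j) (c j) X n) := by
        refine tsum_congr fun n => ?_
        rw [hvn]
        ring
      rw [e5]
      exact h1.trans h2
    have h5 := off_v (N := N) (v := v) (x := fun n => xx (P1 N B ε₁) (φ i n))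
      (x' := fun n => xx (P1 N B ε₁) (φ j n))
      (t := fun n => Ev th D (φ i n)) (t' := fun n => Ev th D (φ j n))
      (s := fun n => Ev dl D (φ i n)) (s' := fun n => Ev dl D (φ j n))
      (R := fun n => rP (φ i) (c i) X n) (R' := fun n => rP (φ j) (c j) X n) hNge1 hv0 hvb hGS
      hK0.le (fun n => xx_or _ _) (fun n => xx_or _ _) (fun n => (hxx (φ i n)).1)
      (fun n => (hxx (φ j n)).1) (fun n => (hxx (φ i n)).2) (fun n => (hxx (φ j n)).2)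
      (hbR i hi) (hbR j hj) (fun n => Ev_bdd hth _) (fun n => Ev_bdd hth _)
      (fun n => Ev_bdd hdl _) (fun n => Ev_bdd hdl _) (hR i hi) (hR j hj)
      h0 h3 h4
    simp only [hrn]
    refine h5.trans ?_
    have h6 := he1 i hi j hj
    rw [← hy] at h6 ⊢
    rw [hO]
    obtain ⟨Q, hQ⟩ : ∃ Q : ℝ, Q = ρ * y * (V i * V j) := ⟨_, rfl⟩
    have hQ0 : 0 ≤ Q := by
      rw [hQ]
      have := (hV0' i hi).le
      have := (hV0' j hj).le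
      positivity
    rw [← hQ] at h6
    have e1 : 4 * y * (ρ * V i * (2 * V j)) = 8 * Q := by rw [hQ]; ring
    rw [e1]
    have h7 : 8 * Q + e ≤ 9 * Q := by linarith only [h6]
    have h8 : e ≤ K ^ 2 * Q := by
      have : 1 * Q ≤ K ^ 2 * Q := mul_le_mul_of_nonneg_right hKK hQ0
      linarith only [this, h6]
    calc e + 4 * K ^ 2 * (8 * Q + e) ≤ K ^ 2 * Q + 4 * K ^ 2 * (9 * Q) :=
          add_le_add h8 (mul_le_mul_of_nonneg_left h7 (by positivity))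
      _ = 37 * K ^ 2 * (ρ * y) * (V i * V j) := by rw [hQ]; ring
  have hdu := duS (fun n : ℤ => Wt N n * v n) hw0 (Icc 1 N) f hw25 𝒜 r
    (fun i hi j hj => by
      refine summ_v (K := (X : ℝ) * X) hNge1 hvb (fun n => ?_)
      rw [abs_mul]
      exact mul_le_mul (hrb i hi n) (hrb j hj n) (abs_nonneg _) (Nat.cast_nonneg _))
    V (fun i hi => (hV0' i hi).le) G O hO0 hGle hOle
  -- the error
  obtain ⟨Λ, hΛ⟩ : ∃ Λ : ℝ, Λ = ∑ i ∈ 𝒜, V i := ⟨_, rfl⟩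
  have hΛ0 : 0 ≤ Λ := by rw [hΛ]; exact sum_nonneg fun i hi => (hV0' i hi).le
  have hkX : (k : ℝ) * X ≤ e := by
    have h2 : (X : ℝ) ≤ (N : ℝ) ^ (1 - 1 / 2 : ℝ) :=
      hXθ.trans (Real.rpow_le_rpow_of_exponent_le hN1 (by norm_num))
    have h4 := pe N (by omega)
    rw [← hL, ← he] at h4
    exact (mul_le_mul_of_nonneg_left h2 (Nat.cast_nonneg k)).trans h4
  have hcard : (𝒜.card : ℝ) * (1 / L ^ (k + 1)) ≤ Λ := by
    rw [hΛ, ← nsmul_eq_mul]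
    exact card_nsmul_le_sum _ _ _ hVl
  have hEr : (𝒜.card : ℝ) * (k * X) ≤ ρ * y * Λ := by
    have h1 : (𝒜.card : ℝ) * (k * X) ≤ 𝒜.card * e :=
      mul_le_mul_of_nonneg_left hkX (Nat.cast_nonneg _)
    have h2 : (𝒜.card : ℝ) * e = ρ * N * ((1 / L ^ (k + 1)) * (1 / L ^ (k + 1))) *
        (𝒜.card * (1 / L ^ (k + 1))) := by
      rw [heL]
      ring
    have h3 : (1 / L ^ (k + 1)) * (1 / L ^ (k + 1)) ≤ V0 * 1 :=
      mul_le_mul hV0l hLp1 hLp.le hV0pos.le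
    have h4 : ρ * N * ((1 / L ^ (k + 1)) * (1 / L ^ (k + 1))) ≤ ρ * N * (V0 * 1) :=
      mul_le_mul_of_nonneg_left h3 (by positivity)
    have h5 : ρ * N * ((1 / L ^ (k + 1)) * (1 / L ^ (k + 1))) *
        (𝒜.card * (1 / L ^ (k + 1))) ≤ ρ * N * (V0 * 1) * Λ :=
      mul_le_mul h4 hcard (by positivity) (by positivity)
    calc (𝒜.card : ℝ) * (k * X) ≤ 𝒜.card * e := h1
      _ ≤ ρ * N * (V0 * 1) * Λ := by rw [h2]; exact h5
      _ = ρ * y * Λ := by rw [hy]; ring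
  have hSa : ∑ i ∈ 𝒜, ∑ d ∈ T i, |DP (φ i) (fun n => f n * xx (P1 N B ε₁) (φ i n)) N d| ≤
      ∑ i ∈ 𝒜, |∑ p ∈ Icc 1 N, f p * r i p| + (𝒜.card : ℝ) * (k * X) := by
    calc _ ≤ ∑ i ∈ 𝒜, (|∑ p ∈ Icc 1 N, f p * r i p| + k * X) := by
          refine sum_le_sum fun i hi => ?_
          simp only [hrn]
          exact (hc i hi).2.2
      _ = _ := by rw [sum_add_distrib, sum_const, nsmul_eq_mul]
  rw [← hΛ] at hdu
  have ha : (231250 * K ^ 2 + 2) * ρ ≤ Real.exp (-(A₀ / ε₁)) := by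
    have h1 := fin_constK (A₀ := A₀) hε₁ hε10 hc₁
    rw [← hKdef, ← hρdef] at h1
    refine le_trans ?_ h1
    refine mul_le_mul_of_nonneg_right ?_ hρ0.le
    have h2 : (1 : ℝ) ≤ 1 / ε₁ ^ 2 := by
      rw [le_div_iff₀ (by positivity)]
      nlinarith only [hε1, hε₁]
    have h3 : 231250 * K ^ 2 * 1 ≤ 5816250 * K ^ 2 * (1 / ε₁ ^ 2) :=
      mul_le_mul (by nlinarith only [hKK]) h2 zero_le_one (by positivity)
    have h4 : 5816250 / ε₁ ^ 2 * K ^ 2 = 5816250 * K ^ 2 * (1 / ε₁ ^ 2) := by ring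
    linarith only [h3, h4]
  have hfin := numP (y := y) (K := K) (ρ := ρ) (Fs := ∑ p ∈ Icc 1 N, f p ^ 2) (G := G) (O := O)
    (SY := ∑ i ∈ 𝒜, |∑ p ∈ Icc 1 N, f p * r i p|)
    (Sa := ∑ i ∈ 𝒜, ∑ d ∈ T i, |DP (φ i) (fun n => f n * xx (P1 N B ε₁) (φ i n)) N d|)
    (Er := (𝒜.card : ℝ) * (k * X)) (Λ := Λ) (A := 112500 * K ^ 2) (a := Real.exp (-(A₀ / ε₁)))
    hy0 hK1 hρ0 hρ1 hΛ0 (by rw [hy]; exact hFs)
    (sum_nonneg fun i _ => abs_nonneg _)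
    (sum_nonneg fun i _ => sum_nonneg fun d _ => abs_nonneg _) hG hO hdu (by positivity) hEr hSa
    rfl ha
  simp only [hVi]
  rw [← hV0def, ← hy, ← hΛ]
  exact hfin

end Pool.Agent.W959.PP
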