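import Pool.Agent.W23.PP.Defs
import Pool.Agent.W214.KS.BXBK0

/-!
PP project (helper23), task BXBP: auxiliary lemmas.
-/

set_option autoImplicit false

namespace Pool.Agent.W959.PP

open Finset
open Pool.Agent.H442R2
open Pool.Agent.H442R2.KF
open Pool.Agent.W23.DC
open Pool.Agent.W23.SG
open Pool.Agent.W23.KT
open Pool.Agent.W23.PL (P1 xx DW Ev)
open Pool.Agent.W23.PP
open Pool.Agent.W500.PL (xx_or xx_nonneg xx_le_one abs_xx Ev_bdd th1 th1_DW Ev_th1 point_diag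
  point_off ev_log)

/-! ### the constant function -/

/-- the constant function `1` -/
def one1 : ℤ → ℤ := fun _ => 1

lemma Sy_one {k M N : ℕ} (hN : 1 ≤ N) : Sy k M N one1 := by
  have hN1 : (1 : ℝ) ≤ N := by exact_mod_cast hN
  refine ⟨fun m n => by simp [one1], fun n => ?_, ⟨∅, by simp, fun n hn => ?_⟩, fun p j hp hj => ?_⟩
  · unfold one1
    simp only [Int.cast_one, abs_one]
    have h1 : (1 : ℝ) ≤ (N : ℝ) ^ M := one_le_pow₀ hN1
    have h2 : (1 : ℝ) ≤ (1 + |(n : ℝ)|) ^ k := one_le_pow₀ (by linarith [abs_nonneg (n : ℝ)])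
    nlinarith
  · unfold one1 at hn
    exact absurd hn one_ne_zero
  · refine ⟨∅, by simp, fun n hn => ?_⟩
    exfalso
    unfold one1 at hn
    have h1 : (p ^ (k * (j - 1) + 1) : ℕ) ∣ 1 := by exact_mod_cast hn
    have h2 : p ∣ 1 := (dvd_pow_self p (Nat.succ_ne_zero _)).trans h1
    exact hp.one_lt.ne' (Nat.dvd_one.1 h2)

lemma Cp_one {M N : ℕ} (hN : 1 ≤ N) (φ : ℤ → ℤ) : Cp M N φ one1 := by
  have hN1 : (1 : ℝ) ≤ N := by exact_mod_cast hN
  refine ⟨1, one_ne_zero, ?_, fun n l _ _ h => h⟩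
  simp only [Int.cast_one, abs_one]
  exact one_le_pow₀ hN1

lemma Sy_two {k M N N' : ℕ} {φ : ℤ → ℤ} (h : Sy k M N φ) (hN : N ≤ N') : Sy k M N' φ := by
  have hNr : (N : ℝ) ≤ N' := by exact_mod_cast hN
  have hp : (N : ℝ) ^ M ≤ (N' : ℝ) ^ M := pow_le_pow_left₀ (Nat.cast_nonneg _) hNr M
  exact ⟨h.per, fun n => (h.gr n).trans (mul_le_mul_of_nonneg_right hp (by positivity)), h.ze,
    h.lift⟩

lemma Cp_two {M N N' : ℕ} {φ ψ : ℤ → ℤ} (h : Cp M N φ ψ) (hN : N ≤ N') : Cp M N' φ ψ := by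
  have hNr : (N : ℝ) ≤ N' := by exact_mod_cast hN
  have hp : (N : ℝ) ^ M ≤ (N' : ℝ) ^ M := pow_le_pow_left₀ (Nat.cast_nonneg _) hNr M
  obtain ⟨R, h1, h2, h3⟩ := h
  exact ⟨R, h1, h2.trans hp, h3⟩

/-! ### densities -/

lemma nr_le (φ : ℤ → ℤ) (d : ℕ) : nr φ d ≤ d := by
  unfold nr
  calc _ ≤ (range d).card := card_filter_le _ _
    _ = d := card_range d

lemma rh_nonneg (φ : ℤ → ℤ) (d : ℕ) : 0 ≤ rh φ d := by
  unfold rh
  positivity

lemma rh_le_one (φ : ℤ → ℤ) (d : ℕ) : rh φ d ≤ 1 := by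
  unfold rh
  exact div_le_one_of_le₀ (by exact_mod_cast nr_le φ d) (Nat.cast_nonneg _)

lemma rh_one (φ : ℤ → ℤ) : rh φ 1 = 1 := by
  classical
  unfold rh nr
  simp

lemma dP_bd (φ : ℤ → ℤ) (d : ℕ) (n : ℤ) : |dP φ d n| ≤ 1 := by
  unfold dP
  have h1 := rh_nonneg φ d
  have h2 := rh_le_one φ d
  split_ifs
  · rw [abs_of_nonneg (by linarith)]
    linarith
  · rw [zero_sub, abs_neg, abs_of_nonneg h1]
    exact h2

lemma RP_bd {φ : ℤ → ℤ} {c : ℕ → ℝ} (hc : ∀ d, |c d| ≤ 1) (X : ℕ) (n : ℤ) : |RP φ c X n| ≤ X := by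
  unfold RP
  refine (abs_sum_le_sum_abs _ _).trans ?_
  refine (sum_le_card_nsmul _ _ 1 (fun d _ => ?_)).trans ?_
  · rw [abs_mul]
    calc |c d| * |dP φ d n| ≤ 1 * 1 :=
          mul_le_mul (hc d) (dP_bd φ d n) (abs_nonneg _) zero_le_one
      _ = 1 := mul_one 1
  · rw [nsmul_eq_mul, Nat.card_Icc]
    simp

lemma rP_bd {φ : ℤ → ℤ} {c : ℕ → ℝ} (hc : ∀ d, |c d| ≤ 1) (X : ℕ) (n : ℤ) : |rP φ c X n| ≤ X := by
  unfold rP
  split_ifs
  · simp
  · exact RP_bd hc X n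

lemma hatP_th1 (φ : ℤ → ℤ) {D : ℕ} (hD : 1 ≤ D) : hatP φ th1 D = 1 := by
  unfold hatP
  rw [sum_eq_single 1]
  · unfold th1
    rw [if_pos rfl, rh_one, one_mul]
  · intro e _ he
    unfold th1
    rw [if_neg he, zero_mul]
  · intro h
    exact absurd (mem_Icc.2 ⟨le_rfl, hD⟩) h

lemma hatP_eq {k M N : ℕ} {φ : ℤ → ℤ} (hRTP : St_RTP) (hφ : Sy k M N φ) {P : Finset ℕ} {D : ℕ}
    {U : ℝ} {t : ℕ → ℝ} (ht : DW P D U t) :
    hatP φ t D = ∑ e ∈ Icc 1 D, t e * gm (rh φ) e := by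
  unfold hatP
  refine sum_congr rfl fun e _ => ?_
  by_cases he : t e = 0
  · rw [he, zero_mul, zero_mul]
  · rw [((hRTP.2.2 k M N φ hφ).2 e (ht.supp e he).1).1]

lemma rh_prime {k M N : ℕ} {φ : ℤ → ℤ} (hRTP : St_RTP) (hφ : Sy k M N φ) {p : ℕ} (hp : p.Prime) :
    0 ≤ rh φ p ∧ rh φ p ≤ 1 ∧ rh φ p ≤ k / p := by
  refine ⟨rh_nonneg φ p, rh_le_one φ p, ?_⟩
  unfold rh
  have h1 := (hRTP.2.2 k M N φ hφ).1 p hp
  have h2 : (nr φ p : ℝ) ≤ k := by exact_mod_cast h1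
  exact div_le_div_of_nonneg_right h2 (Nat.cast_nonneg _)

/-! ### sums with a general weight -/

lemma summ_v {N : ℕ} (hN : 1 ≤ N) {v g : ℤ → ℝ} {bv K : ℝ} (hv : ∀ n, |v n| ≤ bv)
    (hg : ∀ n, |g n| ≤ K) : Summable (fun n : ℤ => Wt N n * v n * g n) := by
  refine Summable.of_norm_bounded ((KF.TaskS.summable_Wt N hN).mul_right (bv * K)) (fun n => ?_)
  have hW : 0 ≤ Wt N n := Real.exp_nonneg _
  have hbv : 0 ≤ bv := (abs_nonneg _).trans (hv n)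
  rw [Real.norm_eq_abs, abs_mul, abs_mul, abs_of_nonneg hW, mul_assoc]
  exact mul_le_mul_of_nonneg_left (mul_le_mul (hv n) (hg n) (abs_nonneg _) hbv) hW

/-- the diagonal sum -/
lemma diag_v {N : ℕ} {v x t R : ℤ → ℝ} {K H bv bR bt : ℝ} (hN : 1 ≤ N)
    (hv0 : ∀ n, 0 ≤ v n) (hvb : ∀ n, |v n| ≤ bv)
    (hGS : BX.St_GS) (hK : 0 ≤ K) (hx01 : ∀ n, x n = 0 ∨ x n = 1)
    (hxt : ∀ n, x n ≤ t n) (hbR : ∀ n, |R n| ≤ bR) (hbt : ∀ n, |t n| ≤ bt)
    (hR : ∀ n : ℤ, |R n| ≤ K * (1 + |(n : ℝ)| / N) ^ (1 / 4 : ℝ))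
    (hH : ∑' n : ℤ, Wt (2 * N) n * v n * t n ≤ H) :
    ∑' n : ℤ, Wt N n * v n * ((x n * R n) * (x n * R n)) ≤ 2 * K ^ 2 * H := by
  have hgs := (hGS N hN).1
  have hbR0 : 0 ≤ bR := (abs_nonneg _).trans (hbR 0)
  have h1 : ∀ n, |x n * R n| ≤ bR := by
    intro n
    rw [abs_mul]
    have hx : |x n| ≤ 1 := by
      rcases hx01 n with h | h <;> rw [h] <;> norm_num
    calc |x n| * |R n| ≤ 1 * bR := mul_le_mul hx (hbR n) (abs_nonneg _) zero_le_one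
      _ = bR := one_mul _
  have hs1 : Summable (fun n : ℤ => Wt N n * v n * ((x n * R n) * (x n * R n))) := by
    refine summ_v (K := bR * bR) hN hvb (fun n => ?_)
    rw [abs_mul]
    exact mul_le_mul (h1 n) (h1 n) (abs_nonneg _) hbR0
  have hs2 : Summable (fun n : ℤ => Wt (2 * N) n * v n * t n) :=
    summ_v (K := bt) (by omega) hvb hbt
  calc ∑' n : ℤ, Wt N n * v n * ((x n * R n) * (x n * R n))
      ≤ ∑' n : ℤ, 2 * K ^ 2 * (Wt (2 * N) n * v n * t n) := by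
        refine hs1.tsum_le_tsum (fun n => ?_) (hs2.mul_left _)
        have hu : (1 : ℝ) ≤ 1 + |(n : ℝ)| / N := by
          have : 0 ≤ |(n : ℝ)| / N := by positivity
          linarith
        have h := point_diag (hx01 n) (hxt n) (Real.exp_nonneg _ : 0 ≤ Wt N n)
          (hv0 n) hu hK (hR n) (hgs n)
        rwa [mul_one] at h
    _ = 2 * K ^ 2 * ∑' n : ℤ, (Wt (2 * N) n * v n * t n) := tsum_mul_left
    _ ≤ 2 * K ^ 2 * H := mul_le_mul_of_nonneg_left hH (by positivity)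

/-- the off-diagonal sums -/
lemma off_v {N : ℕ} {v x x' t t' s s' R R' : ℤ → ℝ} {K H O bv bR bt : ℝ}
    (hN : 1 ≤ N) (hv0 : ∀ n, 0 ≤ v n) (hvb : ∀ n, |v n| ≤ bv) (hGS : BX.St_GS) (hK : 0 ≤ K)
    (hx01 : ∀ n, x n = 0 ∨ x n = 1) (hx01' : ∀ n, x' n = 0 ∨ x' n = 1)
    (hxt : ∀ n, x n ≤ t n) (hxt' : ∀ n, x' n ≤ t' n)
    (hs : ∀ n, t n - x n ≤ s n) (hs' : ∀ n, t' n - x' n ≤ s' n)
    (hbR : ∀ n, |R n| ≤ bR) (hbR' : ∀ n, |R' n| ≤ bR) (hbt : ∀ n, |t n| ≤ bt)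
    (hbt' : ∀ n, |t' n| ≤ bt) (hbs : ∀ n, |s n| ≤ bt) (hbs' : ∀ n, |s' n| ≤ bt)
    (hR : ∀ n : ℤ, |R n| ≤ K * (1 + |(n : ℝ)| / N) ^ (1 / 4 : ℝ))
    (hR' : ∀ n : ℤ, |R' n| ≤ K * (1 + |(n : ℝ)| / N) ^ (1 / 4 : ℝ))
    (hO : |∑' n : ℤ, Wt N n * v n * (t n * t' n) * (R n * R' n)| ≤ O)
    (hH : ∑' n : ℤ, Wt (2 * N) n * v n * (s n * t' n) ≤ H)
    (hH' : ∑' n : ℤ, Wt (2 * N) n * v n * (t n * s' n) ≤ H) :
    |∑' n : ℤ, Wt N n * v n * ((x n * R n) * (x' n * R' n))| ≤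
      O + 4 * K ^ 2 * H := by
  have hgs := (hGS N hN).1
  have hbR0 : 0 ≤ bR := (abs_nonneg _).trans (hbR 0)
  have hbt0 : 0 ≤ bt := (abs_nonneg _).trans (hbt 0)
  have ax : ∀ n, |x n| ≤ 1 := by
    intro n
    rcases hx01 n with h | h <;> rw [h] <;> norm_num
  have ax' : ∀ n, |x' n| ≤ 1 := by
    intro n
    rcases hx01' n with h | h <;> rw [h] <;> norm_num
  have px : ∀ n, 0 ≤ x n := by
    intro n
    rcases hx01 n with h | h <;> rw [h] <;> norm_num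
  have px' : ∀ n, 0 ≤ x' n := by
    intro n
    rcases hx01' n with h | h <;> rw [h] <;> norm_num
  have b1 : ∀ n, |x n * R n| ≤ bR := by
    intro n
    rw [abs_mul]
    calc |x n| * |R n| ≤ 1 * bR := mul_le_mul (ax n) (hbR n) (abs_nonneg _) zero_le_one
      _ = bR := one_mul _
  have b2 : ∀ n, |x' n * R' n| ≤ bR := by
    intro n
    rw [abs_mul]
    calc |x' n| * |R' n| ≤ 1 * bR := mul_le_mul (ax' n) (hbR' n) (abs_nonneg _) zero_le_one
      _ = bR := one_mul _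
  have hs1 : Summable (fun n : ℤ => Wt N n * v n * ((x n * R n) * (x' n * R' n))) := by
    refine summ_v (K := bR * bR) hN hvb (fun n => ?_)
    rw [abs_mul]
    exact mul_le_mul (b1 n) (b2 n) (abs_nonneg _) hbR0
  have hs2 : Summable (fun n : ℤ => Wt N n * v n * (t n * t' n) * (R n * R' n)) := by
    have h1 : Summable (fun n : ℤ => Wt N n * v n *
      ((t n * t' n) * (R n * R' n))) := by
      refine summ_v (K := (bt * bt) * (bR * bR)) hN hvb (fun n => ?_)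
      rw [abs_mul, abs_mul, abs_mul]
      have h2 : |t n| * |t' n| ≤ bt * bt :=
        mul_le_mul (hbt n) (hbt' n) (abs_nonneg _) hbt0
      have h3 : |R n| * |R' n| ≤ bR * bR :=
        mul_le_mul (hbR n) (hbR' n) (abs_nonneg _) hbR0
      exact mul_le_mul h2 h3 (by positivity) (by positivity)
    refine h1.congr (fun n => ?_)
    ring
  have hs3 : Summable (fun n : ℤ => Wt (2 * N) n * v n * (s n * t' n)) := by
    refine summ_v (K := bt * bt) (by omega) hvb (fun n => ?_)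
    rw [abs_mul]
    exact mul_le_mul (hbs n) (hbt' n) (abs_nonneg _) hbt0
  have hs4 : Summable (fun n : ℤ => Wt (2 * N) n * v n * (t n * s' n)) := by
    refine summ_v (K := bt * bt) (by omega) hvb (fun n => ?_)
    rw [abs_mul]
    exact mul_le_mul (hbt n) (hbs' n) (abs_nonneg _) hbt0
  have key : |∑' n : ℤ, Wt N n * v n * ((x n * R n) * (x' n * R' n)) -
      ∑' n : ℤ, Wt N n * v n * (t n * t' n) * (R n * R' n)| ≤
      2 * K ^ 2 * H + 2 * K ^ 2 * H := by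
    rw [← hs1.tsum_sub hs2]
    have hs5 := (hs3.mul_left (2 * K ^ 2)).add (hs4.mul_left (2 * K ^ 2))
    have h1 : ∀ n : ℤ, |Wt N n * v n * ((x n * R n) * (x' n * R' n)) -
      Wt N n * v n * (t n * t' n) * (R n * R' n)| ≤
      2 * K ^ 2 * (Wt (2 * N) n * v n * (s n * t' n)) +
      2 * K ^ 2 * (Wt (2 * N) n * v n * (t n * s' n)) := by
      intro n
      have hu : (1 : ℝ) ≤ 1 + |(n : ℝ)| / N := by
        have : 0 ≤ |(n : ℝ)| / N := by positivity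
        linarith
      exact point_off (px n) (px' n) (hxt n) (hxt' n) (hs n) (hs' n)
        (Real.exp_nonneg _) (hv0 n) hu hK (hR n) (hR' n) (hgs n)
    have h2 := tsum_of_norm_bounded hs5.hasSum (fun n => by
      rw [Real.norm_eq_abs]
      exact h1 n)
    rw [Real.norm_eq_abs] at h2
    refine h2.trans ?_
    rw [(hs3.mul_left (2 * K ^ 2)).tsum_add (hs4.mul_left (2 * K ^ 2)), tsum_mul_left,
      tsum_mul_left]
    have hk : 0 ≤ 2 * K ^ 2 := by positivity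
    exact add_le_add (mul_le_mul_of_nonneg_left hH hk) (mul_le_mul_of_nonneg_left hH' hk)
  have h3 := abs_sub_abs_le_abs_sub (∑' n : ℤ, Wt N n * v n *
      ((x n * R n) * (x' n * R' n)))
      (∑' n : ℤ, Wt N n * v n * (t n * t' n) * (R n * R' n))
  linarith

/-! ### the large sieve inequality -/

/-- Cauchy-Schwarz with almost orthogonal functions -/
lemma duS {ι : Type} (w : ℤ → ℝ) (hw0 : ∀ n, 0 ≤ w n) (P : Finset ℕ) (f : ℕ → ℝ)
    (hf : ∀ p ∈ P, f p ≠ 0 → 1 ≤ 25 * w (p : ℤ)) (𝒜 : Finset ι) (r : ι → ℤ → ℝ)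
    (hsum : ∀ i ∈ 𝒜, ∀ j ∈ 𝒜, Summable (fun n : ℤ => w n * (r i n * r j n)))
    (V : ι → ℝ) (hV : ∀ i ∈ 𝒜, 0 ≤ V i) (G O : ℝ) (hO0 : 0 ≤ O)
    (hG : ∀ i ∈ 𝒜, ∑' n : ℤ, w n * (r i n * r i n) ≤ G * V i)
    (hO : ∀ i ∈ 𝒜, ∀ j ∈ 𝒜, i ≠ j → |∑' n : ℤ, w n * (r i n * r j n)| ≤ O * (V i * V j)) :
    (∑ i ∈ 𝒜, |∑ p ∈ P, f p * r i p|) ^ 2 ≤
      25 * (∑ p ∈ P, f p ^ 2) * (G * ∑ i ∈ 𝒜, V i + O * (∑ i ∈ 𝒜, V i) ^ 2) := by
  classical
  set s : ι → ℝ := fun i => if 0 ≤ ∑ p ∈ P, f p * r i p then 1 else -1 with hs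
  have hs1 : ∀ i, |s i| = 1 := by
    intro i
    rw [hs]
    simp only
    split_ifs <;> simp
  have hss : ∀ i, s i * s i = 1 := by
    intro i
    rw [hs]
    simp only
    split_ifs <;> norm_num
  have hsY : ∀ i, |∑ p ∈ P, f p * r i p| = s i * ∑ p ∈ P, f p * r i p := by
    intro i
    rw [hs]
    simp only
    split_ifs with h
    · rw [one_mul, abs_of_nonneg h]
    · rw [neg_one_mul, abs_of_neg (not_le.1 h)]
  set R : ℤ → ℝ := fun n => ∑ i ∈ 𝒜, s i * r i n with hR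
  have h1 : ∑ i ∈ 𝒜, |∑ p ∈ P, f p * r i p| = ∑ p ∈ P, f p * (if f p = 0 then 0 else R p) := by
    have e1 : ∀ p ∈ P, f p * (if f p = 0 then 0 else R p) = ∑ i ∈ 𝒜, s i * (f p * r i p) := by
      intro p _
      by_cases h : f p = 0
      · simp [h]
      · rw [if_neg h, hR, Finset.mul_sum]
        refine sum_congr rfl fun i _ => ?_
        ring
    rw [sum_congr rfl e1, sum_comm]
    refine sum_congr rfl fun i _ => ?_
    rw [hsY, Finset.mul_sum]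
  rw [h1]
  refine (sum_mul_sq_le_sq_mul_sq P f _).trans ?_
  have hRR : ∀ n, w n * (R n * R n) = ∑ i ∈ 𝒜, ∑ j ∈ 𝒜, s i * s j * (w n * (r i n * r j n)) := by
    intro n
    rw [hR]
    simp only
    rw [Finset.sum_mul_sum, Finset.mul_sum]
    refine sum_congr rfl fun i _ => ?_
    rw [Finset.mul_sum]
    refine sum_congr rfl fun j _ => ?_
    ring
  have hsR : Summable (fun n : ℤ => w n * (R n * R n)) := by
    simp_rw [hRR]
    exact summable_sum fun i hi => summable_sum fun j hj => (hsum i hi j hj).mul_left _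
  have h2 : ∑ p ∈ P, (if f p = 0 then 0 else R p) ^ 2 ≤ 25 * ∑' n : ℤ, w n * (R n * R n) := by
    have e1 : ∀ p ∈ P, (if f p = 0 then 0 else R p) ^ 2 ≤ 25 * (w (p : ℤ) * (R p * R p)) := by
      intro p hp
      by_cases h : f p = 0
      · rw [if_pos h]
        have := hw0 (p : ℤ)
        have := mul_nonneg this (mul_self_nonneg (R p))
        nlinarith
      · rw [if_neg h]
        have h3 := hf p hp h
        have h4 := mul_le_mul_of_nonneg_right h3 (mul_self_nonneg (R p))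
        nlinarith
    refine (sum_le_sum e1).trans ?_
    rw [← Finset.mul_sum]
    refine mul_le_mul_of_nonneg_left ?_ (by norm_num)
    have e2 : ∑ p ∈ P, w (p : ℤ) * (R p * R p) =
        ∑ n ∈ P.map ⟨fun p : ℕ => (p : ℤ), Nat.cast_injective⟩, w n * (R n * R n) := by
      rw [sum_map]
      rfl
    rw [e2]
    exact hsR.sum_le_tsum _ (fun n _ => mul_nonneg (hw0 n) (mul_self_nonneg _))
  have h3 : ∑' n : ℤ, w n * (R n * R n) ≤ G * ∑ i ∈ 𝒜, V i + O * (∑ i ∈ 𝒜, V i) ^ 2 := by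
    have e1 : ∑' n : ℤ, w n * (R n * R n) =
        ∑ i ∈ 𝒜, ∑ j ∈ 𝒜, s i * s j * ∑' n : ℤ, w n * (r i n * r j n) := by
      simp_rw [hRR]
      rw [Summable.tsum_finsetSum (fun i hi => summable_sum fun j hj =>
        (hsum i hi j hj).mul_left _)]
      refine sum_congr rfl fun i hi => ?_
      rw [Summable.tsum_finsetSum (fun j hj => (hsum i hi j hj).mul_left _)]
      refine sum_congr rfl fun j hj => ?_
      rw [tsum_mul_left]
    rw [e1]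
    have e2 : ∀ i ∈ 𝒜, ∑ j ∈ 𝒜, s i * s j * ∑' n : ℤ, w n * (r i n * r j n) ≤
        G * V i + ∑ j ∈ 𝒜, O * (V i * V j) := by
      intro i hi
      rw [← add_sum_erase 𝒜 (fun j => s i * s j * ∑' n : ℤ, w n * (r i n * r j n)) hi]
      have e3 : s i * s i * ∑' n : ℤ, w n * (r i n * r i n) ≤ G * V i := by
        rw [hss, one_mul]
        exact hG i hi
      have e4 : ∑ j ∈ 𝒜.erase i, s i * s j * ∑' n : ℤ, w n * (r i n * r j n) ≤
          ∑ j ∈ 𝒜.erase i, O * (V i * V j) := by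
        refine sum_le_sum fun j hj => ?_
        have hji := mem_erase.1 hj
        refine (le_abs_self _).trans ?_
        rw [abs_mul, abs_mul, hs1, hs1, one_mul, one_mul]
        exact hO i hi j hji.2 (Ne.symm hji.1)
      have e5 : ∑ j ∈ 𝒜.erase i, O * (V i * V j) ≤ ∑ j ∈ 𝒜, O * (V i * V j) :=
        sum_le_sum_of_subset_of_nonneg (erase_subset _ _) fun j hj _ =>
          mul_nonneg hO0 (mul_nonneg (hV i hi) (hV j hj))
      linarith
    refine (sum_le_sum e2).trans (le_of_eq ?_)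
    have e6 : (∑ i ∈ 𝒜, V i) ^ 2 = ∑ i ∈ 𝒜, ∑ j ∈ 𝒜, V i * V j := by
      rw [sq, Finset.sum_mul_sum]
    rw [e6]
    simp only [sum_add_distrib, Finset.mul_sum]
  have h4 : 0 ≤ ∑ p ∈ P, f p ^ 2 := sum_nonneg fun p _ => sq_nonneg _
  calc (∑ p ∈ P, f p ^ 2) * ∑ p ∈ P, (if f p = 0 then 0 else R p) ^ 2
      ≤ (∑ p ∈ P, f p ^ 2) * (25 * ∑' n : ℤ, w n * (R n * R n)) :=
        mul_le_mul_of_nonneg_left h2 h4
    _ ≤ (∑ p ∈ P, f p ^ 2) * (25 * (G * ∑ i ∈ 𝒜, V i + O * (∑ i ∈ 𝒜, V i) ^ 2)) :=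
        mul_le_mul_of_nonneg_left (mul_le_mul_of_nonneg_left h3 (by norm_num)) h4
    _ = _ := by ring

end Pool.Agent.W959.PP
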